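import Mathlib
import Pool.Agent.Helper1_NP9.Stmts

/-!
# Squad NP9, module FA: real inequality
-/

set_option autoImplicit false

namespace Pool.Agent.NP9.H13

open Pool.Agent.NP9

theorem fact_le (n : ℕ) (C : ℕ) (h1 : 1 ≤ n) (h2 : n ≤ C) : n.factorial ≤ C ^ (n - 1) := by
  induction n with
  | zero => omega
  | succ m ih =>
    rcases Nat.eq_zero_or_pos m with rfl | hm
    · simp
    · have h3 := ih hm (by omega)
      rw [Nat.factorial_succ, Nat.add_sub_cancel]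
      calc (m + 1) * m.factorial ≤ C * C ^ (m - 1) := Nat.mul_le_mul h2 h3
        _ = C ^ m := by
          rw [← pow_succ']
          congr 1
          omega

/-- the basic facts -/
theorem facts (n F c : ℕ) (K v G ρ : ℝ) (h : Sz n F c K v G ρ) :
    1 ≤ (F : ℝ) ∧ 4000 * (F : ℝ) ≤ (c : ℝ) ∧
    (2 * (c : ℝ)) ^ n ≤ 2 * (2 * (c : ℝ) - 1) ^ n ∧ 0 < (2 * (c : ℝ)) ^ n ∧
    0 < (2 * (c : ℝ)) ^ n / (n.factorial : ℝ) ∧
    2 * (c : ℝ) ≤ (2 * (c : ℝ)) ^ n / (n.factorial : ℝ) ∧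
    (2 * (c : ℝ)) ^ n / (n.factorial : ℝ) ≤ (2 * (c : ℝ)) ^ n ∧
    |ρ - 2 * v * G - (2 * (c : ℝ)) ^ n / (n.factorial : ℝ)| ≤
      21 / 10000 * ((2 * (c : ℝ)) ^ n / (n.factorial : ℝ)) / F := by
  obtain ⟨hn, hF, hc, hK, hv, hr⟩ := h
  have hF' : (1 : ℝ) ≤ (F : ℝ) := by exact_mod_cast hF
  have hn' : (1 : ℝ) ≤ (n : ℝ) := by exact_mod_cast hn
  have hc' : 1000 * ((n : ℝ) + 1) ^ 2 * (F : ℝ) ≤ (c : ℝ) := by exact_mod_cast hc
  have hsq : (4 : ℝ) ≤ ((n : ℝ) + 1) ^ 2 := by nlinarith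
  have hsqF : 4 * (F : ℝ) ≤ ((n : ℝ) + 1) ^ 2 * (F : ℝ) :=
    mul_le_mul_of_nonneg_right hsq (by linarith)
  have hc4 : 4000 * (F : ℝ) ≤ (c : ℝ) := by linarith
  have hcpos : (0 : ℝ) < (c : ℝ) := by linarith
  have hnc : (n : ℝ) ≤ (c : ℝ) := by nlinarith
  have h2c : (0 : ℝ) < 2 * (c : ℝ) := by linarith
  set C : ℝ := (2 * (c : ℝ)) ^ n with hC
  have hCpos : 0 < C := by positivity
  have hfpos : (0 : ℝ) < (n.factorial : ℝ) := by exact_mod_cast n.factorial_pos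
  -- Bernoulli
  have hB : C ≤ 2 * (2 * (c : ℝ) - 1) ^ n := by
    have h1 : 1 + (n : ℝ) * (-(1 / (2 * (c : ℝ)))) ≤ (1 + -(1 / (2 * (c : ℝ)))) ^ n := by
      apply one_add_mul_le_pow
      have : 1 / (2 * (c : ℝ)) ≤ 1 := by
        rw [div_le_one h2c]
        linarith
      linarith
    have h2 : (n : ℝ) * (1 / (2 * (c : ℝ))) ≤ 1 / 2 := by
      rw [mul_one_div, div_le_div_iff₀ h2c (by norm_num)]
      linarith
    have h3 : (1 : ℝ) / 2 ≤ (1 + -(1 / (2 * (c : ℝ)))) ^ n := by linarith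
    have h4 : (2 * (c : ℝ) - 1) = 2 * (c : ℝ) * (1 + -(1 / (2 * (c : ℝ)))) := by
      field_simp
      ring
    rw [h4, mul_pow, ← hC]
    nlinarith
  have hL2c : 2 * (c : ℝ) ≤ C / (n.factorial : ℝ) := by
    rw [le_div_iff₀ hfpos]
    have h1 : n.factorial ≤ (2 * c) ^ (n - 1) := fact_le n (2 * c) hn (by
      have : (n : ℝ) ≤ 2 * (c : ℝ) := by linarith
      exact_mod_cast this)
    have h2 : (n.factorial : ℝ) ≤ (2 * (c : ℝ)) ^ (n - 1) := by exact_mod_cast h1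
    calc 2 * (c : ℝ) * (n.factorial : ℝ) ≤ 2 * (c : ℝ) * (2 * (c : ℝ)) ^ (n - 1) := by gcongr
      _ = C := by
        rw [hC, ← pow_succ']
        congr 1
        omega
  have hLC : C / (n.factorial : ℝ) ≤ C := by
    apply div_le_self hCpos.le
    exact_mod_cast n.factorial_pos
  set L : ℝ := C / (n.factorial : ℝ) with hL
  have hLpos : 0 < L := by positivity
  refine ⟨hF', hc4, hB, hCpos, hLpos, hL2c, hLC, hr.trans ?_⟩
  have hKC : C / 2 ≤ K := by linarith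
  have hKpos : 0 < K := by linarith
  have hvpos : 0 < v := by rw [hv]; positivity
  have h5 : 4 * (c : ℝ) * C / v ≤ 8 / 100 := by
    rw [div_le_iff₀ hvpos, hv]
    nlinarith [mul_le_mul_of_nonneg_left hKC hcpos.le]
  have h6 : (n : ℝ) ^ 2 / (c : ℝ) ≤ 1 / (1000 * (F : ℝ)) := by
    rw [div_le_div_iff₀ hcpos (by positivity)]
    nlinarith
  have h7 : (8 : ℝ) / 100 ≤ 1 / 100000 * L / F := by
    rw [le_div_iff₀ (by linarith)]
    nlinarith
  have h8 : 2 * ((n : ℝ) ^ 2 / (c : ℝ)) * L ≤ 2 * (1 / (1000 * (F : ℝ))) * L := by gcongr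
  have h9 : 2 * (1 / (1000 * (F : ℝ))) * L = 2 / 1000 * L / F := by
    field_simp
  have h10 : 21 / 10000 * L / (F : ℝ) = 2 / 1000 * L / F + 10 / 100000 * L / F := by ring
  have h11 : 0 ≤ L / F := by positivity
  have h12 : 1 / 100000 * L / F ≤ 10 / 100000 * L / F := by
    have e1 : 1 / 100000 * L / (F : ℝ) = 1 / 100000 * (L / F) := by ring
    have e2 : 10 / 100000 * L / (F : ℝ) = 10 / 100000 * (L / F) := by ring
    rw [e1, e2]
    linarith
  linarith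

/-- FA -/
theorem fa : FaStmt := by
  intro n F c K v ρ G g h hineq
  obtain ⟨hF, hc, hB, hC, hL, hL2, hLC, he⟩ := facts n F c K v G ρ h
  have hK1 := h.K1
  have hv := h.v1
  set C : ℝ := (2 * (c : ℝ)) ^ n with hCdef
  set L : ℝ := C / (n.factorial : ℝ) with hLdef
  set Z : ℝ := ρ - 2 * v * (g : ℝ) with hZ
  have hKpos : 0 < K := by linarith
  have hcpos : (0 : ℝ) < c := by linarith
  have hvK : v = 100 * (c : ℝ) * K := hv
  have hZpos : 0 < Z := by
    by_contra hcon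
    push Not at hcon
    have h1 : -Z ≤ K - (F : ℝ) * Z := by nlinarith
    have h2 : Z ^ 2 ≤ (K - (F : ℝ) * Z) ^ 2 := by nlinarith
    nlinarith [sq_nonneg (K - (F : ℝ) * Z)]
  have h3 : K - (F : ℝ) * Z < Z / 2 := by
    by_contra hcon
    push Not at hcon
    nlinarith
  have h4 : -(Z / 2) < K - (F : ℝ) * Z := by
    by_contra hcon
    push Not at hcon
    nlinarith
  have hZK : Z < 2 * K := by nlinarith
  have he' : |ρ - 2 * v * (G : ℝ) - L| ≤ 21 / 10000 * L := by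
    refine he.trans ?_
    rw [div_le_iff₀ (by linarith)]
    nlinarith
  obtain ⟨he1, he2⟩ := abs_le.1 he'
  have hLK : L ≤ 2 * K := by linarith
  have hgG : g = G := by
    have h5 : |2 * v * ((G : ℝ) - (g : ℝ))| < 2 * v := by
      rw [abs_lt]
      have e : 2 * v * ((G : ℝ) - (g : ℝ)) = Z - (ρ - 2 * v * (G : ℝ)) := by rw [hZ]; ring
      rw [e]
      have h6 : 4 * K < 2 * v := by rw [hvK]; nlinarith
      constructor <;> nlinarith
    have hvpos : 0 < v := by rw [hvK]; positivity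
    rw [abs_mul, abs_of_pos (by linarith : (0 : ℝ) < 2 * v)] at h5
    have h7 : |(G : ℝ) - (g : ℝ)| < 1 := by
      by_contra hcon
      push Not at hcon
      nlinarith
    have h8 : |((G : ℤ) - (g : ℤ) : ℤ)| < 1 := by
      have : ((|((G : ℤ) - (g : ℤ) : ℤ)| : ℤ) : ℝ) < 1 := by
        push_cast
        exact h7
      exact_mod_cast this
    have h9 := Int.abs_lt_one_iff.1 h8
    omega
  refine ⟨hgG, ?_⟩
  have hZL : Z ≤ 2 * L := by
    rw [hZ, hgG]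
    linarith
  have h10 : K < ((F : ℝ) + 1 / 2) * (2 * L) := by nlinarith
  have h11 : ((F : ℝ) + 1 / 2) * (2 * L) ≤ (4 * (F : ℝ) + 2) * (2 * (c : ℝ) - 1) ^ n := by
    have : L ≤ 2 * (2 * (c : ℝ) - 1) ^ n := hLC.trans hB
    nlinarith
  have h12 : (4 * (F : ℝ) + 2) * (2 * (c : ℝ) - 1) ^ n ≤ (2 * (c : ℝ) - 1) ^ (n + 1) := by
    rw [pow_succ]
    have h13 : 0 < (2 * (c : ℝ) - 1) ^ n := by nlinarith
    nlinarith
  linarith

end Pool.Agent.NP9.H13
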